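import Pool.Agent.Y661.HE.Stm3
import Pool.Agent.Y858.HE.AS5

/-!
# Project HE (helper661): asymptotics for a fixed number of terms
-/

set_option autoImplicit false

namespace Pool.Agent.Y287.HE.AS8

open Filter Pool.Agent.Y661.HE Pool.Agent.Y858.HE.AS5

/-- HE-AS8 -/
theorem main : Pool.Agent.Y661.HE.S_AS8 := by
  intro β hβ hβ2 m N hN
  have hN1 : 1 ≤ N := by omega
  have hNr : (1 : ℝ) ≤ N := by exact_mod_cast hN1
  have hN0 : (0 : ℝ) < N := by linarith
  obtain ⟨κ, hκ⟩ : ∃ κ : ℝ, κ = 1 / (32 * (N : ℝ) ^ 2 *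
      (9 * ((N : ℝ) * N + 1) ^ 2 * ((N + 1).factorial : ℝ))) := ⟨_, rfl⟩
  have hκ0 : 0 < κ := by rw [hκ]; positivity
  have hlin : ∀ C : ℝ, ∀ᶠ d : ℕ in atTop, C ≤ (d : ℝ) := fun C =>
    tendsto_natCast_atTop_atTop.eventually_ge_atTop C
  filter_upwards [hlin (16 * N), hlin (72 * (4 * N) ^ N), hlin (5 / κ), evg hβ (m + 2) 36 (by norm_num),
    evg hβ (m + 1) 1 one_pos, six hβ hβ, eventually_ge_atTop 1] with d h1 h2 h3 h4 h5 h6 h7 r R hr hR
  obtain ⟨x, hx⟩ : ∃ x : ℝ, x = d := ⟨_, rfl⟩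
  rw [← hx] at h1 h2 h3 h4 h5 h6 hr hR ⊢
  have hx1 : 1 ≤ x := by rw [hx]; exact_mod_cast h7
  have hx0 : 0 < x := by linarith
  have hβx : x ^ β ≤ x := by
    calc x ^ β ≤ x ^ (1 : ℝ) := Real.rpow_le_rpow_of_exponent_le hx1 (by linarith)
      _ = x := Real.rpow_one x
  have hβ0 : 0 ≤ x ^ β := Real.rpow_nonneg hx0.le _
  have hR1 : Real.exp (2 * x ^ β) ≤ R := by rw [hR]; exact Nat.le_ceil _
  have hR2 : (R : ℝ) ≤ Real.exp (2 * x ^ β) + 1 := by
    rw [hR]; exact (Nat.ceil_lt_add_one (Real.exp_pos _).le).le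
  have hpow4 : x ^ ((m : ℝ) + 2) = x ^ (m + 2) := by
    rw [← Real.rpow_natCast]; push_cast; rfl
  have hpow5 : x ^ ((m : ℝ) + 1) = x ^ (m + 1) := by
    rw [← Real.rpow_natCast]; push_cast; rfl
  rw [hpow4] at h4
  rw [hpow5, one_mul] at h5
  have hr0 : 0 < r := by rw [hr]; positivity
  have hexp : Real.exp (x ^ β) ≤ Real.exp (2 * x ^ β) := Real.exp_le_exp.2 (by linarith)
  refine ⟨?_, ?_, ?_, ?_, ?_, ?_⟩
  · rw [mul_one, div_le_one hx0]
    exact h1
  · have e1 : x ^ N = x ^ (m + 1) * x ^ (3 * m + 11) := by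
      rw [← pow_add]
      congr 1
      omega
    have e2 : x ≤ x ^ (3 * m + 11) := le_self_pow₀ hx1 (by omega)
    rw [mul_one, mul_one, div_pow, hr, e1]
    have hp : 0 < x ^ (m + 1) := by positivity
    have hp2 : 0 < x ^ (3 * m + 11) := by positivity
    rw [mul_div_assoc', div_le_div_iff₀ (by positivity) (by norm_num)]
    have e3 : (x ^ (m + 1))⁻¹ * (x ^ (m + 1) * x ^ (3 * m + 11)) = x ^ (3 * m + 11) := by
      field_simp
    rw [e3]
    linarith
  · have e1 : (Real.sqrt d) ^ N = x ^ (2 * m + 6) := by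
      have : N = 2 * (2 * m + 6) := by omega
      rw [this, pow_mul, Real.sq_sqrt (Nat.cast_nonneg _), hx]
    have e2 : 2 * (r / (8 * N)) ^ 2 * (Real.sqrt d) ^ N /
        (9 * 1 ^ 2 * ((N : ℝ) * N + 1) ^ 2 * ((N + 1).factorial : ℝ)) = κ * x ^ 4 := by
      rw [e1, hκ, hr]
      have e3 : x ^ (2 * m + 6) = (x ^ (m + 1)) ^ 2 * x ^ 4 := by
        rw [← pow_mul, ← pow_add]
        congr 1
        omega
      rw [e3]
      have hp : x ^ (m + 1) ≠ 0 := by positivity
      have hf : ((N + 1).factorial : ℝ) ≠ 0 := by positivity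
      have hn : (N : ℝ) * N + 1 ≠ 0 := by positivity
      field_simp
      ring
    have e4 : (2 * (R : ℝ) + 1) ^ d ≤ Real.exp (4 * x ^ 2) := by
      have a1 : 2 * (R : ℝ) + 1 ≤ Real.exp (2 * x + 2) := by
        have b1 : Real.exp (2 * x ^ β) ≤ Real.exp (2 * x) := Real.exp_le_exp.2 (by linarith)
        have b2 : 1 ≤ Real.exp (2 * x) := Real.one_le_exp (by linarith)
        have b3 : (5 : ℝ) ≤ Real.exp 2 := by
          have c1 : (1 : ℝ) + 1 ≤ Real.exp 1 := Real.add_one_le_exp 1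
          have c2 := Real.exp_one_gt_d9
          have c3 : Real.exp 2 = Real.exp 1 * Real.exp 1 := by
            rw [← Real.exp_add]; norm_num
          rw [c3]
          nlinarith
        rw [Real.exp_add]
        nlinarith
      calc (2 * (R : ℝ) + 1) ^ d ≤ (Real.exp (2 * x + 2)) ^ d :=
            pow_le_pow_left₀ (by positivity) a1 d
        _ = Real.exp (d * (2 * x + 2)) := (Real.exp_nat_mul _ _).symm
        _ ≤ Real.exp (4 * x ^ 2) := by
            refine Real.exp_le_exp.2 ?_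
            rw [← hx]
            nlinarith
    have e5 : pr d N 1 (r / (8 * N)) ≤ 2 * N * Real.exp (-(5 * x ^ 2)) := by
      unfold pr
      rw [e2]
      refine mul_le_mul_of_nonneg_left (Real.exp_le_exp.2 ?_) (by positivity)
      have b1 : 5 ≤ κ * x := by
        rw [div_le_iff₀ hκ0] at h3
        linarith
      have b2 : κ * x ^ 4 = (κ * x) * (x * x ^ 2) := by ring
      have b3 : x ^ 2 ≤ x * x ^ 2 := by nlinarith [sq_nonneg x]
      have b4 : 5 * x ^ 2 ≤ κ * x ^ 4 := by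
        rw [b2]
        have : 0 ≤ x ^ 2 := sq_nonneg x
        nlinarith
      linarith
    have e6 : 2 * (N : ℝ) * Real.exp (-(5 * x ^ 2)) * Real.exp (4 * x ^ 2) =
        2 * N * Real.exp (-x ^ 2) := by
      rw [mul_assoc, ← Real.exp_add]
      congr 2
      ring
    have e7 : Real.exp (-x ^ 2) ≤ 1 / (8 * N) := by
      rw [Real.exp_neg, inv_eq_one_div]
      refine one_div_le_one_div_of_le (by positivity) ?_
      have b1 := Real.add_one_le_exp (x ^ 2)
      nlinarith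
    calc (2 * (R : ℝ) + 1) ^ d * pr d N 1 (r / (8 * N))
        ≤ Real.exp (4 * x ^ 2) * (2 * N * Real.exp (-(5 * x ^ 2))) := by
          refine mul_le_mul e4 e5 ?_ (Real.exp_pos _).le
          unfold pr
          positivity
      _ = 2 * N * Real.exp (-x ^ 2) := by rw [← e6]; ring
      _ ≤ 2 * N * (1 / (8 * N)) := mul_le_mul_of_nonneg_left e7 (by positivity)
      _ = 1 / 4 := by field_simp; norm_num
  · have b1 : 0 < 2 * (R : ℝ) + 1 := by positivity
    rw [hr, div_le_iff₀ b1]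
    have hp : 0 < x ^ (m + 1) := by positivity
    have b2 : 36 * x ^ (m + 2) ≤ 2 * (R : ℝ) + 1 := by linarith
    have b3 : (x ^ (m + 1))⁻¹ / 2 * (36 * x ^ (m + 2)) = 18 * x := by
      rw [pow_succ x (m + 1)]
      field_simp
      norm_num
    rw [← b3]
    exact mul_le_mul_of_nonneg_left b2 (by positivity)
  · exact hR2.trans h6
  · unfold rr
    rw [hr, ← hx, Real.exp_neg]
    exact inv_anti₀ (by positivity) h5

end Pool.Agent.Y287.HE.AS8
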